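import Pool.Agent.Lib_MP_55d5ef_pl.PL
import Pool.Agent.Lib_MP_55d5ef_geo.GStd

/-!
# Level B: the statement

A PL torus with a PL product neighbourhood in the PL 4-sphere `dD5` (the boundary of the
standard 5-simplex) whose complement is piecewise smoothly homeomorphic to `H⁴/Γ`.
-/

open Matrix Topology

namespace PL55

open Lib_MP_55d5ef_geo

/-- The boundary of the standard 5-simplex in `ℝ⁶`, the standard PL 4-sphere. -/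
def dD5 : Set (Fin 6 → ℝ) := {x | (∀ i, 0 ≤ x i) ∧ ∑ i, x i = 1 ∧ ∃ i, x i = 0}

/-- Two points of `H⁴` are equivalent when an element of `Γ` carries one to the other. -/
def orbitSetoid (Γ : Subgroup (GL (Fin 5) ℝ)) : Setoid H4 where
  r x y := ∃ g ∈ Γ, g.1 *ᵥ (x : Fin 5 → ℝ) = y
  iseqv := by
    refine ⟨fun x => ⟨1, Γ.one_mem, by simp⟩, ?_, ?_⟩
    · rintro x y ⟨g, hg, h⟩
      refine ⟨g⁻¹, Γ.inv_mem hg, ?_⟩
      rw [← h, Matrix.mulVec_mulVec, ← Units.val_mul]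
      simp
    · rintro x y z ⟨g, hg, h⟩ ⟨g', hg', h'⟩
      refine ⟨g' * g, Γ.mul_mem hg' hg, ?_⟩
      rw [← h', ← h, Matrix.mulVec_mulVec, ← Units.val_mul]

/-- The quotient space `H⁴/Γ`. -/
abbrev HypQuot (Γ : Subgroup (GL (Fin 5) ℝ)) : Type := Quotient (orbitSetoid Γ)

/-- The square `[-1,1]²`, a PL disc with centre `0`. -/
def sq : Set (Fin 2 → ℝ) := {p | ∀ i, |p i| ≤ 1}

/-- `ι : ℝ² × [-1,1]² → dD5` induces a PL embedding of `(ℝ²/ℤ²) × [-1,1]²` onto a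
neighbourhood of its core `ι (ℝ² × 0)`. -/
structure IsPLTorusNeighbourhood (ι : (Fin 2 → ℝ) × (Fin 2 → ℝ) → (Fin 6 → ℝ)) : Prop where
  /-- values in `dD5` -/
  maps : ∀ x, ∀ p ∈ sq, ι (x, p) ∈ dD5
  /-- exactly the points which agree in `(ℝ²/ℤ²) × [-1,1]²` have the same image -/
  eq_iff : ∀ x y, ∀ p ∈ sq, ∀ q ∈ sq,
    (ι (x, p) = ι (y, q) ↔ p = q ∧ ∃ m : Fin 2 → ℤ, ∀ i, y i = x i + m i)
  /-- a fundamental domain `[0,1]² × [-1,1]²` is covered by finitely many closed polyhedra, on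
  each of which `ι` is affine -/
  piecewiseAffine : ∃ (n : ℕ) (Q : Fin n → Set ((Fin 2 → ℝ) × (Fin 2 → ℝ)))
    (A : Fin n → ((Fin 2 → ℝ) × (Fin 2 → ℝ)) →L[ℝ] (Fin 6 → ℝ)) (b : Fin n → Fin 6 → ℝ),
    (∀ k, HPoly (Q k)) ∧
    (∀ k, ∀ z ∈ Q k, (∀ i, 0 ≤ z.1 i ∧ z.1 i ≤ 1) → z.2 ∈ sq → ι z = A k z + b k) ∧
    (∀ z, (∀ i, 0 ≤ z.1 i ∧ z.1 i ≤ 1) → z.2 ∈ sq → ∃ k, z ∈ Q k)
  /-- the image of the interior is open in `dD5` -/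
  isOpen : ∃ U : Set (Fin 6 → ℝ), IsOpen U ∧
    ι '' {z | ∀ i, |z.2 i| < 1} = U ∩ dD5

/-- The core torus. -/
def coreTorus (ι : (Fin 2 → ℝ) × (Fin 2 → ℝ) → (Fin 6 → ℝ)) : Set (Fin 6 → ℝ) :=
  ι '' {z | z.2 = 0}

/-- A homeomorphism from the complement of `T` in `dD5` to `H⁴/Γ` is piecewise smooth: in
every facet `{x_j = 0}` of `dD5`, a neighbourhood of every point outside `T` is covered by
finitely many closed polyhedra `Q k`, on each of which the homeomorphism lifts to a map to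
`H⁴`, smooth and with injective derivative along the facet. -/
def IsPiecewiseSmooth {Γ : Subgroup (GL (Fin 5) ℝ)} {T : Set (Fin 6 → ℝ)}
    (h : {x : Fin 6 → ℝ // x ∈ dD5 ∧ x ∉ T} ≃ₜ HypQuot Γ) : Prop :=
  ∀ j : Fin 6, ∀ p ∈ dD5, p j = 0 → p ∉ T →
    ∃ (n : ℕ) (Q : Fin n → Set (Fin 6 → ℝ)) (g : Fin n → (Fin 6 → ℝ) → (Fin 5 → ℝ)),
      (∀ k, HPoly (Q k)) ∧
      (∀ k, ∀ x ∈ Q k, ∀ hx : x ∈ dD5 ∧ x ∉ T, x j = 0 →
        (∃ hg : g k x ∈ H4, h ⟨x, hx⟩ = Quotient.mk _ ⟨g k x, hg⟩) ∧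
        ContDiffAt ℝ ((⊤ : ℕ∞) : WithTop ℕ∞) (g k) x ∧
        ∀ v : Fin 6 → ℝ, v j = 0 → ∑ i, v i = 0 → fderiv ℝ (g k) x v = 0 → v = 0) ∧
      (∀ᶠ x in 𝓝 p, x ∈ dD5 → x j = 0 → ∃ k, x ∈ Q k)

/-- The level B statement. -/
def LevelB : Prop :=
  ∃ (Γ : Subgroup (GL (Fin 5) ℝ)) (ι : (Fin 2 → ℝ) × (Fin 2 → ℝ) → (Fin 6 → ℝ))
    (h : {x : Fin 6 → ℝ // x ∈ dD5 ∧ x ∉ coreTorus ι} ≃ₜ HypQuot Γ),
    IsFiniteVolumeManifoldGroup Γ ∧ IsPLTorusNeighbourhood ι ∧ IsPiecewiseSmooth h ∧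
    Nonempty (dD5 ≃ₜ Metric.sphere (0 : EuclideanSpace ℝ (Fin 5)) 1)

end PL55
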