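import Pool.Agent.Lib_MP_55d5ef_pl.PLU
import Pool.Agent.Lib_MP_55d5ef_pl.Stmt
import Pool.Agent.Lib_MP_55d5ef_fl.Sph

/-!
# Assembly of the level B statement from its links
-/

open Filter Topology

set_option linter.unusedSectionVars false

namespace PL55

open Fl49 Finset Lib_MP_55d5ef_geo

theorem dD5_iff (x : Fin 6 → ℝ) : x ∈ dD5 ↔ x ∈ Bd (univ : Finset (Fin 6)) := by
  unfold dD5 Bd Dl
  constructor
  · rintro ⟨h1, h2, i, hi⟩
    exact ⟨⟨h1, fun v hv => absurd (mem_univ v) hv, h2⟩, i, mem_univ i, hi⟩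
  · rintro ⟨⟨h1, _, h2⟩, i, _, hi⟩
    exact ⟨h1, h2, i, hi⟩

/-- The directions of the facet `j`. -/
def fdir (j : Fin 6) : Submodule ℝ (Fin 6 → ℝ) where
  carrier := {v | v j = 0 ∧ ∑ i, v i = 0}
  add_mem' := by
    rintro v w ⟨h1, h2⟩ ⟨h3, h4⟩
    refine ⟨?_, ?_⟩
    · rw [Pi.add_apply, h1, h3, add_zero]
    · simp only [Pi.add_apply, Finset.sum_add_distrib, h2, h4, add_zero]
  zero_mem' := ⟨rfl, by simp⟩
  smul_mem' := by
    rintro c v ⟨h1, h2⟩
    refine ⟨?_, ?_⟩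
    · rw [Pi.smul_apply, h1, smul_zero]
    · simp only [Pi.smul_apply, smul_eq_mul, ← Finset.mul_sum, h2, mul_zero]

theorem dirs_erase (j : Fin 6) (v : Fin 6 → ℝ) :
    v ∈ dirs ((univ : Finset (Fin 6)).erase j) ↔ v ∈ fdir j := by
  have e : ∑ i, v i = v j + ∑ u ∈ (univ : Finset (Fin 6)).erase j, v u :=
    (Finset.add_sum_erase univ v (mem_univ j)).symm
  constructor
  · rintro ⟨h1, h2⟩
    have h3 : v j = 0 := h1 j (Finset.notMem_erase j univ)
    exact ⟨h3, by rw [e, h3, h2, add_zero]⟩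
  · rintro ⟨h1, h2⟩
    refine ⟨fun u hu => ?_, ?_⟩
    · by_cases h : u = j
      · rw [h]; exact h1
      · exact absurd (Finset.mem_erase.mpr ⟨h, mem_univ u⟩) hu
    · rw [e, h1, zero_add] at h2
      exact h2

section bd

variable {ρS : Type} {labS : ρS → Finset (Fin 6)} {numS : ρS → Fin 6 → ℕ}
  {odS : ρS → Fin 6 → List (Fin 6)} {SS : Set ρS} {cS : Fin 6 → ρS}

/-- A point of `dD5`. -/
def p0 : Fin 6 → ℝ := Pi.single 0 1

theorem p0_mem : p0 ∈ Bd (univ : Finset (Fin 6)) := by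
  refine ⟨⟨fun v => ?_, fun v hv => absurd (mem_univ v) hv, ?_⟩, 1, mem_univ 1, ?_⟩
  · unfold p0
    by_cases h : v = 0
    · subst h; simp
    · rw [Pi.single_eq_of_ne h]
  · unfold p0
    simp
  · unfold p0
    rw [Pi.single_eq_of_ne (by decide)]

open Classical in
/-- Total version of the inverse of `Full.homeo`. -/
noncomputable def bdi (hS : Full labS numS odS univ cS SS) (x : Fin 6 → ℝ) :
    X labS numS odS SS :=
  if hx : x ∈ Bd (univ : Finset (Fin 6)) then hS.homeo.symm ⟨x, hx⟩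
  else hS.homeo.symm ⟨p0, p0_mem⟩

theorem bdi_pt (hS : Full labS numS odS univ cS SS) {x : Fin 6 → ℝ}
    (hx : x ∈ Bd (univ : Finset (Fin 6))) {j : Fin 6} (hj : x j = 0)
    (hxj : x ∈ Dl (labS (cS j))) :
    bdi hS x = pt labS numS odS (cS j) (hS.mem j (mem_univ j)) x hxj := by
  unfold bdi
  rw [dif_pos hx, Homeomorph.symm_apply_eq]
  apply Subtype.ext
  rfl

theorem mem_face (hS : Full labS numS odS univ cS SS) {x : Fin 6 → ℝ}
    (hx : x ∈ dD5) {j : Fin 6} (hj : x j = 0) : x ∈ Dl (labS (cS j)) := by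
  rw [hS.labc j (mem_univ j)]
  exact (Dl_erase_iff (mem_univ j)).mpr ⟨((dD5_iff x).mp hx).1, hj⟩

/-- The tautological map from `dD5` to the realisation of the boundary of the 5-simplex is
piecewise linear. -/
theorem bdi_isPL (hS : Full labS numS odS univ cS SS) (T : Set (Fin 6 → ℝ))
    (T' : Set (X labS numS odS SS)) (hT : ∀ x ∈ dD5, x ∉ T → bdi hS x ∉ T')
    (y0 : X labS numS odS SS) :
    IsPL (fun j : Fin 6 => {x | x ∈ dD5 ∧ x j = 0 ∧ x ∉ T}) fdir
      (fun (_ : Fin 6) (x : Fin 6 → ℝ) => x)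
      (dom labS numS odS SS T') (fun i => dirs (labS i)) (chart labS numS odS SS y0)
      (bdi hS) := by
  intro j p _
  refine ⟨1, fun _ => Set.univ, fun _ => ⟨cS j, hS.mem j (mem_univ j)⟩,
    fun _ => ContinuousLinearMap.id ℝ _, fun _ => 0, fun _ => HPoly.univ, ?_, ?_, ?_⟩
  · rintro k x ⟨_, hx1, hx2, hx3⟩
    have hxj := mem_face hS hx1 hx2
    have e1 : (ContinuousLinearMap.id ℝ (Fin 6 → ℝ)) x + 0 = x := by simp
    have e2 := bdi_pt hS ((dD5_iff x).mp hx1) hx2 hxj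
    simp only [e1]
    refine ⟨⟨hxj, ?_⟩, ?_⟩
    · rw [← e2]
      exact hT x hx1 hx3
    · unfold chart
      rw [dif_pos hxj, e2]
  · intro k v hv
    refine ⟨?_, fun h => by simpa using h⟩
    simp only [hS.labc j (mem_univ j)]
    exact (dirs_erase j v).mpr hv
  · exact Eventually.of_forall fun x => ⟨0, Set.mem_univ x⟩

/-- The tautological map from the realisation of the boundary of the 5-simplex to `ℝ⁶` is
piecewise linear. -/
theorem toBd_isPL (hS : Full labS numS odS univ cS SS) (x0 : X labS numS odS SS) :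
    IsPL (dom labS numS odS SS ∅) (fun i => dirs (labS i)) (chart labS numS odS SS x0)
      (fun j : Fin 6 => {x | x ∈ dD5 ∧ x j = 0}) fdir
      (fun (_ : Fin 6) (x : Fin 6 → ℝ) => x) (fun y => (hS.homeo y).1) := by
  rintro ⟨i, hi⟩ p _
  obtain ⟨j, _, rfl⟩ := hS.out i hi
  refine ⟨1, fun _ => Set.univ, fun _ => j,
    fun _ => ContinuousLinearMap.id ℝ _, fun _ => 0, fun _ => HPoly.univ, ?_, ?_, ?_⟩
  · rintro k x ⟨_, hx1, _⟩
    have e1 : (ContinuousLinearMap.id ℝ (Fin 6 → ℝ)) x + 0 = x := by simp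
    simp only [e1]
    have hx2 := hx1
    rw [hS.labc j (mem_univ j)] at hx2
    have hx3 := (Dl_erase_iff (mem_univ j)).mp hx2
    refine ⟨⟨(dD5_iff x).mpr ⟨hx3.1, j, mem_univ j, hx3.2⟩, hx3.2⟩, ?_⟩
    unfold chart
    rw [dif_pos hx1]
    rfl
  · intro k v hv
    refine ⟨?_, fun h => by simpa using h⟩
    have hv' : v ∈ dirs (labS (cS j)) := hv
    rw [hS.labc j (mem_univ j)] at hv'
    exact (dirs_erase j v).mp hv'
  · exact Eventually.of_forall fun x => ⟨0, Set.mem_univ x⟩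

end bd

/-- `dD5` is a 4-sphere. -/
theorem dD5_sphere : Nonempty (dD5 ≃ₜ Metric.sphere (0 : EuclideanSpace ℝ (Fin 5)) 1) := by
  have hs : Function.Injective (fun i : Fin 6 => i) := fun _ _ h => h
  have e : dD5 = Bd (Finset.univ.image (fun i : Fin 6 => i)) := by
    ext x
    rw [dD5_iff, Finset.image_id']
  exact ⟨(Homeomorph.setCongr e).trans (bdSphere (n := 5) (fun i : Fin 6 => i) hs)⟩

/-- The assembly. -/
theorem levelB_of {Γ : Subgroup (GL (Fin 5) ℝ)} (hΓ : IsFiniteVolumeManifoldGroup Γ)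
    -- the ideal triangulation `C`
    {ρC : Type} {labC : ρC → Finset (Fin 5)} {numC : ρC → Fin 5 → ℕ}
    {odC : ρC → Fin 5 → List (Fin 5)} {SC : Set ρC} (infC : X labC numC odC SC)
    (hF : X labC numC odC SC → HypQuot Γ)
    (eF : {x : X labC numC odC SC // x ≠ infC} ≃ₜ HypQuot Γ) (heF : ∀ x, eF x = hF x.1)
    (pF : PDX labC numC odC SC {infC} H4 (Quotient.mk (orbitSetoid Γ)) hF)
    -- `C'`
    {VD : Type} [DecidableEq VD] {ρD : Type} {labD : ρD → Finset VD} {numD : ρD → VD → ℕ}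
    {odD : ρD → VD → List VD} {SD : Set ρD} (infD : X labD numD odD SD)
    (e2 : X labD numD odD SD ≃ₜ X labC numC odC SC) (he2 : e2 infD = infC)
    (p2 : PLX labD numD odD SD {infD} labC numC odC SC {infC} e2)
    -- `N`
    {VN : Type} [DecidableEq VN] {ρN : Type} {labN : ρN → Finset VN} {numN : ρN → VN → ℕ}
    {odN : ρN → VN → List VN} {SN : Set ρN} (core : Set (X labN numN odN SN))
    (f3 : X labN numN odN SN → X labD numD odD SD)
    (e3 : {x : X labN numN odN SN // x ∉ core} ≃ₜ {x : X labD numD odD SD // x ≠ infD})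
    (he3 : ∀ x, (e3 x).1 = f3 x.1)
    (p3 : PLX labN numN odN SN core labD numD odD SD {infD} f3)
    -- the boundary of the 5-simplex
    {ρS : Type} {labS : ρS → Finset (Fin 6)} {numS : ρS → Fin 6 → ℕ}
    {odS : ρS → Fin 6 → List (Fin 6)} {SS : Set ρS} {cS : Fin 6 → ρS}
    (hS : Full labS numS odS univ cS SS)
    (e4 : X labS numS odS SS ≃ₜ X labN numN odN SN)
    (p4 : PLX labS numS odS SS ∅ labN numN odN SN ∅ e4)
    (p4' : PLX labN numN odN SN ∅ labS numS odS SS ∅ e4.symm)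
    -- the product neighbourhood of the core
    (ι0 : (Fin 2 → ℝ) × (Fin 2 → ℝ) → X labN numN odN SN)
    (i1 : ∀ x y, ∀ p ∈ sq, ∀ q ∈ sq,
      (ι0 (x, p) = ι0 (y, q) ↔ p = q ∧ ∃ m : Fin 2 → ℤ, ∀ i, y i = x i + m i))
    (i2 : ∀ x0, IsPL (fun _ : Unit => {z : (Fin 2 → ℝ) × (Fin 2 → ℝ) | z.2 ∈ sq})
      (fun _ => ⊤) (fun (_ : Unit) (z : (Fin 2 → ℝ) × (Fin 2 → ℝ)) => z)
      (dom labN numN odN SN ∅) (fun i => dirs (labN i)) (chart labN numN odN SN x0) ι0)
    (i3 : IsOpen (ι0 '' {z | ∀ i, |z.2 i| < 1}))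
    (i4 : ι0 '' {z | z.2 = 0} = core) : LevelB := by
  classical
  -- the embedding
  let E : X labN numN odN SN ≃ₜ Bd (univ : Finset (Fin 6)) := e4.symm.trans hS.homeo
  let ι : (Fin 2 → ℝ) × (Fin 2 → ℝ) → (Fin 6 → ℝ) := fun z => (E (ι0 z)).1
  have hEs : ∀ (x : Fin 6 → ℝ) (hx : x ∈ Bd (univ : Finset (Fin 6))),
      E.symm ⟨x, hx⟩ = e4 (bdi hS x) := by
    intro x hx
    show e4 (hS.homeo.symm ⟨x, hx⟩) = _
    unfold bdi
    rw [dif_pos hx]
  have hcore : ∀ (x : Fin 6 → ℝ) (hx : x ∈ Bd (univ : Finset (Fin 6))),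
      x ∈ coreTorus ι ↔ E.symm ⟨x, hx⟩ ∈ core := by
    intro x hx
    rw [← i4]
    constructor
    · rintro ⟨z, hz, rfl⟩
      refine ⟨z, hz, ?_⟩
      exact (E.symm_apply_apply _).symm
    · rintro ⟨z, hz, hz2⟩
      refine ⟨z, hz, ?_⟩
      show (E (ι0 z)).1 = x
      rw [hz2, E.apply_symm_apply]
  -- the homeomorphism
  let E1 : {x : Fin 6 → ℝ // x ∈ dD5 ∧ x ∉ coreTorus ι} ≃ₜ
      {b : Bd (univ : Finset (Fin 6)) // E.symm b ∉ core} :=
    { toFun := fun x => ⟨⟨x.1, (dD5_iff _).mp x.2.1⟩,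
        fun h => x.2.2 ((hcore _ _).mpr h)⟩
      invFun := fun b => ⟨b.1.1, (dD5_iff _).mpr b.1.2,
        fun h => b.2 ((hcore _ _).mp h)⟩
      left_inv := fun x => rfl
      right_inv := fun b => rfl
      continuous_toFun := by
        refine Continuous.subtype_mk (Continuous.subtype_mk continuous_subtype_val _) _
      continuous_invFun := by
        refine Continuous.subtype_mk (continuous_subtype_val.comp continuous_subtype_val) _ }
  let E2 : {b : Bd (univ : Finset (Fin 6)) // E.symm b ∉ core} ≃ₜ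
      {y : X labN numN odN SN // y ∉ core} :=
    E.symm.subtype (fun _ => Iff.rfl)
  let E4 : {x : X labD numD odD SD // x ≠ infD} ≃ₜ {x : X labC numC odC SC // x ≠ infC} :=
    e2.subtype (fun x => by
      constructor
      · intro h1 h2
        exact h1 (e2.injective (h2.trans he2.symm))
      · intro h1 h2
        exact h1 (by rw [h2, he2]))
  let h : {x : Fin 6 → ℝ // x ∈ dD5 ∧ x ∉ coreTorus ι} ≃ₜ HypQuot Γ :=
    E1.trans (E2.trans (e3.trans (E4.trans eF)))
  have hh : ∀ x (hx : x ∈ dD5 ∧ x ∉ coreTorus ι),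
      h ⟨x, hx⟩ = hF (e2 (f3 (e4 (bdi hS x)))) := by
    intro x hx
    have hxb := (dD5_iff x).mp hx.1
    show eF (E4 (e3 (E2 (E1 ⟨x, hx⟩)))) = _
    rw [heF]
    have s1 : (E4 (e3 (E2 (E1 ⟨x, hx⟩)))).1 = e2 (e3 (E2 (E1 ⟨x, hx⟩))).1 := rfl
    have s2 : (E2 (E1 ⟨x, hx⟩)).1 = e4 (bdi hS x) := hEs x hxb
    rw [s1, he3, s2]
  refine ⟨Γ, ι, h, hΓ, ?_, ?_, dD5_sphere⟩
  · -- the neighbourhood
    refine ⟨?_, ?_, ?_, ?_⟩
    · intro x p _
      exact (dD5_iff _).mpr (E (ι0 (x, p))).2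
    · intro x y p hp q hq
      rw [← i1 x y p hp q hq]
      constructor
      · intro h1
        exact E.injective (Subtype.ext h1)
      · intro h1
        show (E (ι0 (x, p))).1 = (E (ι0 (y, q))).1
        rw [h1]
    · have hx0 : ι0 (0, 0) = ι0 (0, 0) := rfl
      have key := ((toBd_isPL hS (e4.symm (ι0 (0, 0)))).comp
        ((p4' (ι0 (0, 0)) (e4.symm (ι0 (0, 0)))).comp (i2 (ι0 (0, 0)))))
      have hK : IsCompact {z : (Fin 2 → ℝ) × (Fin 2 → ℝ) |
          (∀ i, 0 ≤ z.1 i ∧ z.1 i ≤ 1) ∧ z.2 ∈ sq} := by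
        have e : {z : (Fin 2 → ℝ) × (Fin 2 → ℝ) | (∀ i, 0 ≤ z.1 i ∧ z.1 i ≤ 1) ∧ z.2 ∈ sq} =
            (Set.pi Set.univ fun _ : Fin 2 => Set.Icc (0 : ℝ) 1) ×ˢ
            (Set.pi Set.univ fun _ : Fin 2 => Set.Icc (-1 : ℝ) 1) := by
          ext z
          simp only [sq, Set.mem_prod, Set.mem_pi, Set.mem_univ, forall_true_left,
            Set.mem_Icc, abs_le]
          rfl
        rw [e]
        exact (isCompact_univ_pi fun _ => isCompact_Icc).prod
          (isCompact_univ_pi fun _ => isCompact_Icc)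
      obtain ⟨n, Q, j, A, b, k1, k2, _, k4⟩ := key.compact () hK (fun z hz => hz.2)
      refine ⟨n, Q, A, b, k1, ?_, fun z h1 h2 => k4 z ⟨h1, h2⟩⟩
      intro k z hz _ hz2
      exact (k2 k z ⟨hz, hz2⟩).2
    · have ho : IsOpen (E '' (ι0 '' {z | ∀ i, |z.2 i| < 1})) := E.isOpenMap _ i3
      obtain ⟨U, hU, hU2⟩ := isOpen_induced_iff.mp ho
      refine ⟨U, hU, ?_⟩
      ext x
      constructor
      · rintro ⟨z, hz, rfl⟩
        refine ⟨?_, (dD5_iff _).mpr (E (ι0 z)).2⟩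
        have : E (ι0 z) ∈ Subtype.val ⁻¹' U := by
          rw [hU2]
          exact ⟨_, ⟨z, hz, rfl⟩, rfl⟩
        exact this
      · rintro ⟨hx1, hx2⟩
        have : (⟨x, (dD5_iff x).mp hx2⟩ : Bd (univ : Finset (Fin 6))) ∈
            Subtype.val ⁻¹' U := hx1
        rw [hU2] at this
        obtain ⟨_, ⟨z, hz, rfl⟩, hz2⟩ := this
        exact ⟨z, hz, congrArg Subtype.val hz2⟩
  · -- piecewise smoothness
    let TS : Set (X labS numS odS SS) := {y | e4 y ∈ core}
    have hTS : ∀ x ∈ dD5, x ∉ coreTorus ι → bdi hS x ∉ TS := by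
      intro x hx hx2 h1
      refine hx2 ((hcore x ((dD5_iff x).mp hx)).mpr ?_)
      rw [hEs]
      exact h1
    have q4 : PLX labS numS odS SS TS labN numN odN SN core e4 :=
      p4.restrict (Set.empty_subset _) (fun x hx => hx)
    have q := pF.comp ((p2.comp p3).comp q4)
    have key := (q (bdi hS p0)).comp
      (bdi_isPL hS (coreTorus ι) TS hTS (bdi hS p0))
    intro j p hp hpj hpT
    obtain ⟨n, Q, g, k1, k2, k3, k4⟩ := key j p ⟨hp, hpj, hpT⟩
    refine ⟨n, Q, g, k1, ?_, ?_⟩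
    · intro k x hx hxD hxj
      obtain ⟨hg, hg2⟩ := k2 k x ⟨hx, hxD.1, hxj, hxD.2⟩
      obtain ⟨hs, hs2⟩ := k3 k x ⟨hx, hxD.1, hxj, hxD.2⟩
      refine ⟨⟨hg, ?_⟩, hs, fun v hv1 hv2 hv3 => hs2 v ⟨hv1, hv2⟩ hv3⟩
      rw [hh x hxD]
      exact hg2
    · -- a neighbourhood of `p` in the facet avoids `T`
      have hclosed : IsClosed {x : Fin 6 → ℝ | x ∈ coreTorus ι} := by
        have hT : IsCompact (coreTorus ι) := by
          have e : coreTorus ι = (fun z => (E (ι0 z)).1) ''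
              {z : (Fin 2 → ℝ) × (Fin 2 → ℝ) | (∀ i, 0 ≤ z.1 i ∧ z.1 i ≤ 1) ∧ z.2 = 0} := by
            ext x
            constructor
            · rintro ⟨⟨z1, z2⟩, hz, rfl⟩
              simp only [Set.mem_setOf_eq] at hz
              subst hz
              have hsq : (0 : Fin 2 → ℝ) ∈ sq := fun i => by simp
              refine ⟨(fun i => Int.fract (z1 i), 0), ⟨fun i => ⟨Int.fract_nonneg _,
                (Int.fract_lt_one _).le⟩, rfl⟩, ?_⟩
              have := (i1 (fun i => Int.fract (z1 i)) z1 0 hsq 0 hsq).mpr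
                ⟨rfl, fun i => ⌊z1 i⌋, fun i => (Int.fract_add_floor (z1 i)).symm⟩
              show (E (ι0 _)).1 = (E (ι0 _)).1
              rw [this]
            · rintro ⟨z, hz, rfl⟩
              exact ⟨z, hz.2, rfl⟩
          rw [e]
          have hK : IsCompact {z : (Fin 2 → ℝ) × (Fin 2 → ℝ) |
              (∀ i, 0 ≤ z.1 i ∧ z.1 i ≤ 1) ∧ z.2 = 0} := by
            have e : {z : (Fin 2 → ℝ) × (Fin 2 → ℝ) |
                (∀ i, 0 ≤ z.1 i ∧ z.1 i ≤ 1) ∧ z.2 = 0} =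
                (Set.pi Set.univ fun _ : Fin 2 => Set.Icc (0 : ℝ) 1) ×ˢ {0} := by
              ext z
              simp only [Set.mem_prod, Set.mem_pi, Set.mem_univ, forall_true_left,
                Set.mem_Icc, Set.mem_singleton_iff]
              rfl
            rw [e]
            exact (isCompact_univ_pi fun _ => isCompact_Icc).prod isCompact_singleton
          have key2 := ((toBd_isPL hS (e4.symm (ι0 (0, 0)))).comp
            ((p4' (ι0 (0, 0)) (e4.symm (ι0 (0, 0)))).comp (i2 (ι0 (0, 0)))))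
          refine hK.image_of_continuousOn ?_
          intro z hz
          have hz2 : z ∈ {z : (Fin 2 → ℝ) × (Fin 2 → ℝ) | z.2 ∈ sq} := by
            show z.2 ∈ sq
            rw [hz.2]
            exact fun i => by simp
          exact (key2.continuousWithinAt () hz2).mono (fun y hy => by
            show y.2 ∈ sq
            rw [hy.2]
            exact fun i => by simp)
        exact hT.isClosed
      have hU : ∀ᶠ x in 𝓝 p, x ∉ coreTorus ι := hclosed.isOpen_compl.mem_nhds hpT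
      rw [eventually_nhdsWithin_iff] at k4
      filter_upwards [k4, hU] with x hx hxU hxd hxj
      exact hx ⟨hxd, hxj, hxU⟩

end PL55
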