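import Pool.Agent.Lib_MP_55d5ef_pl.PL
import Pool.Agent.Lib_MP_55d5ef_fl.Gen

/-!
# Charts of generalised triangulations

`PLX`, `PDX` : piecewise linear (smooth) maps on the realisation `X lab num od S` of a
generalised triangulation, outside a set `T`.
-/

set_option linter.unusedSectionVars false

namespace PL55

open Fl49 Finset

variable {V : Type} [DecidableEq V] {ρ : Type}

/-- The directions of the simplex with vertex set `s`. -/
def dirs (s : Finset V) : Submodule ℝ (V → ℝ) where
  carrier := {v | (∀ u, u ∉ s → v u = 0) ∧ ∑ u ∈ s, v u = 0}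
  add_mem' := by
    rintro v w ⟨h1, h2⟩ ⟨h3, h4⟩
    refine ⟨fun u hu => ?_, ?_⟩
    · rw [Pi.add_apply, h1 u hu, h3 u hu, add_zero]
    · simp only [Pi.add_apply, Finset.sum_add_distrib, h2, h4, add_zero]
  zero_mem' := ⟨fun _ _ => rfl, by simp⟩
  smul_mem' := by
    rintro c v ⟨h1, h2⟩
    refine ⟨fun u hu => ?_, ?_⟩
    · rw [Pi.smul_apply, h1 u hu, smul_zero]
    · simp only [Pi.smul_apply, smul_eq_mul, ← Finset.mul_sum, h2, mul_zero]

variable (lab : ρ → Finset V) (num : ρ → V → ℕ) (od : ρ → V → List V) (S : Set ρ)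

/-- The part of the simplex `i` outside the set `T` of the realisation. -/
def dom (T : Set (X lab num od S)) (i : S) : Set (V → ℝ) :=
  {x | ∃ hx : x ∈ Dl (lab i), pt lab num od i i.2 x hx ∉ T}

open Classical in
/-- The chart `i` (the value `x0` outside the simplex is never used). -/
noncomputable def chart (x0 : X lab num od S) (i : S) (x : V → ℝ) : X lab num od S :=
  if hx : x ∈ Dl (lab i) then pt lab num od i i.2 x hx else x0

variable {V' : Type} [DecidableEq V'] {ρ' : Type}
variable {V'' : Type} [DecidableEq V''] {ρ'' : Type}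

/-- `f` is a piecewise linear map from the complement of `T` to the complement of `T'`. -/
def PLX (T : Set (X lab num od S)) (lab' : ρ' → Finset V') (num' : ρ' → V' → ℕ)
    (od' : ρ' → V' → List V') (S' : Set ρ') (T' : Set (X lab' num' od' S'))
    (f : X lab num od S → X lab' num' od' S') : Prop :=
  ∀ x0 y0, IsPL (dom lab num od S T) (fun i => dirs (lab i)) (chart lab num od S x0)
    (dom lab' num' od' S' T') (fun i => dirs (lab' i)) (chart lab' num' od' S' y0) f

/-- `h` is a piecewise smooth map from the complement of `T` to `M`. -/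
def PDX [Fintype V] {E : Type} [NormedAddCommGroup E] [NormedSpace ℝ E] {M : Type}
    (T : Set (X lab num od S)) (H : Set E) (π : H → M) (h : X lab num od S → M) : Prop :=
  ∀ x0, IsPD (dom lab num od S T) (fun i => dirs (lab i)) (chart lab num od S x0) H π h

variable {lab num od S}
variable {lab' : ρ' → Finset V'} {num' : ρ' → V' → ℕ} {od' : ρ' → V' → List V'} {S' : Set ρ'}
variable {lab'' : ρ'' → Finset V''} {num'' : ρ'' → V'' → ℕ} {od'' : ρ'' → V'' → List V''}
  {S'' : Set ρ''}

theorem PLX.comp {T : Set (X lab num od S)} {T' : Set (X lab' num' od' S')}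
    {T'' : Set (X lab'' num'' od'' S'')} {f : X lab num od S → X lab' num' od' S'}
    {g : X lab' num' od' S' → X lab'' num'' od'' S''}
    (hg : PLX lab' num' od' S' T' lab'' num'' od'' S'' T'' g)
    (hf : PLX lab num od S T lab' num' od' S' T' f) :
    PLX lab num od S T lab'' num'' od'' S'' T'' (fun x => g (f x)) :=
  fun x0 z0 => (hg (f x0) z0).comp (hf x0 (f x0))

theorem PDX.comp [Fintype V] [Fintype V'] {E : Type} [NormedAddCommGroup E] [NormedSpace ℝ E]
    {M : Type} {H : Set E} {π : H → M}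
    {T : Set (X lab num od S)} {T' : Set (X lab' num' od' S')}
    {f : X lab num od S → X lab' num' od' S'} {h : X lab' num' od' S' → M}
    (hh : PDX lab' num' od' S' T' H π h) (hf : PLX lab num od S T lab' num' od' S' T' f) :
    PDX lab num od S T H π (fun x => h (f x)) :=
  fun x0 => (hh (f x0)).comp (hf x0 (f x0))

/-- A convenient criterion for `PLX`: pieces given explicitly in terms of `pt`. -/
theorem PLX.of_pieces {T : Set (X lab num od S)} {T' : Set (X lab' num' od' S')}
    {f : X lab num od S → X lab' num' od' S'}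
    (hT : ∀ x, x ∉ T → f x ∉ T')
    (h : ∀ i : S, ∀ p (hp : p ∈ Dl (lab i)), pt lab num od i i.2 p hp ∉ T →
      ∃ (n : ℕ) (Q : Fin n → Set (V → ℝ)) (j : Fin n → S')
        (A : Fin n → (V → ℝ) →L[ℝ] (V' → ℝ)) (b : Fin n → V' → ℝ),
        (∀ k, HPoly (Q k)) ∧
        (∀ k, ∀ x ∈ Q k, ∀ hx : x ∈ Dl (lab i), pt lab num od i i.2 x hx ∉ T →
          ∃ hy : A k x + b k ∈ Dl (lab' (j k)),
          f (pt lab num od i i.2 x hx) = pt lab' num' od' (j k) (j k).2 (A k x + b k) hy) ∧
        (∀ k, ∀ v ∈ dirs (lab i), A k v ∈ dirs (lab' (j k)) ∧ (A k v = 0 → v = 0)) ∧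
        (∀ᶠ x in nhdsWithin p (dom lab num od S T i), ∃ k, x ∈ Q k)) :
    PLX lab num od S T lab' num' od' S' T' f := by
  classical
  intro x0 y0 i p hp
  obtain ⟨hp1, hp2⟩ := hp
  obtain ⟨n, Q, j, A, b, h1, h2, h3, h4⟩ := h i p hp1 hp2
  refine ⟨n, Q, j, A, b, h1, ?_, h3, h4⟩
  rintro k x ⟨hx, hx1, hx2⟩
  obtain ⟨hy, he⟩ := h2 k x hx hx1 hx2
  refine ⟨⟨hy, ?_⟩, ?_⟩
  · rw [← he]
    exact hT _ hx2
  · unfold chart
    rw [dif_pos hx1, dif_pos hy, he]

end PL55
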