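import Mathlib

/-!
# Piecewise linear and piecewise smooth maps between spaces with charts

A space `X` with charts: `χ i : E → X` on the domain `D i ⊆ E`, with a subspace `W i` of
directions of `D i`.  `PLAt` : near the point `p` of the chart `i` the map `f` is given by
finitely many affine maps on closed polyhedra.  `PDAt` : the same with smooth immersions into
the total space of a covering of the target.
-/

open Filter Topology

set_option linter.unusedSectionVars false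

namespace PL55

/-- A closed polyhedron: a finite intersection of closed half spaces. -/
def HPoly {E : Type} [AddCommGroup E] [Module ℝ E] [TopologicalSpace E] (Q : Set E) : Prop :=
  ∃ (n : ℕ) (f : Fin n → E →L[ℝ] ℝ) (c : Fin n → ℝ), Q = {x | ∀ k, 0 ≤ f k x + c k}

section

variable {E E' E'' : Type} [AddCommGroup E] [Module ℝ E] [TopologicalSpace E]
  [AddCommGroup E'] [Module ℝ E'] [TopologicalSpace E'] [ContinuousAdd E']
  [AddCommGroup E''] [Module ℝ E''] [TopologicalSpace E''] [ContinuousAdd E'']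

theorem HPoly.univ : HPoly (Set.univ : Set E) :=
  ⟨0, fun k => k.elim0, fun k => k.elim0, by ext x; simp⟩

theorem HPoly.isClosed {Q : Set E} (h : HPoly Q) : IsClosed Q := by
  obtain ⟨n, f, c, rfl⟩ := h
  have e : {x | ∀ k, 0 ≤ f k x + c k} = ⋂ k, {x | 0 ≤ f k x + c k} := by
    ext x; simp
  rw [e]
  exact isClosed_iInter fun k =>
    isClosed_le continuous_const ((f k).continuous.add continuous_const)

theorem HPoly.halfspace (f : E →L[ℝ] ℝ) (c : ℝ) : HPoly {x | 0 ≤ f x + c} :=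
  ⟨1, fun _ => f, fun _ => c, by ext x; simp⟩

theorem HPoly.inter {P Q : Set E} (hP : HPoly P) (hQ : HPoly Q) : HPoly (P ∩ Q) := by
  obtain ⟨n, f, c, rfl⟩ := hP
  obtain ⟨m, g, d, rfl⟩ := hQ
  refine ⟨n + m, Fin.append f g, Fin.append c d, ?_⟩
  ext x
  simp only [Set.mem_inter_iff, Set.mem_setOf_eq]
  constructor
  · rintro ⟨h1, h2⟩ k
    refine Fin.addCases (fun i => ?_) (fun i => ?_) k
    · simpa using h1 i
    · simpa using h2 i
  · intro h
    exact ⟨fun i => by simpa using h (Fin.castAdd m i),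
      fun i => by simpa using h (Fin.natAdd n i)⟩

/-- A finite intersection of polyhedra. -/
theorem HPoly.biInter {κ : Type} (s : Finset κ) {P : κ → Set E} (h : ∀ k ∈ s, HPoly (P k)) :
    HPoly (⋂ k ∈ s, P k) := by
  classical
  induction s using Finset.induction_on with
  | empty => simpa using HPoly.univ
  | insert a s ha ih =>
    rw [Finset.set_biInter_insert]
    exact (h a (Finset.mem_insert_self a s)).inter
      (ih fun k hk => h k (Finset.mem_insert_of_mem hk))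

/-- Preimage of a polyhedron under an affine map. -/
theorem HPoly.preimage {Q : Set E'} (h : HPoly Q) (A : E →L[ℝ] E') (b : E') :
    HPoly {x | A x + b ∈ Q} := by
  obtain ⟨n, f, c, rfl⟩ := h
  refine ⟨n, fun k => (f k).comp A, fun k => f k b + c k, ?_⟩
  ext x
  simp only [Set.mem_setOf_eq, map_add, ContinuousLinearMap.comp_apply]
  constructor
  · intro h k; have := h k; linarith
  · intro h k; have := h k; linarith

end

section

variable {E E' E'' : Type} [AddCommGroup E] [Module ℝ E] [TopologicalSpace E]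
  [AddCommGroup E'] [Module ℝ E'] [TopologicalSpace E'] [ContinuousAdd E']
  [AddCommGroup E''] [Module ℝ E''] [TopologicalSpace E''] [ContinuousAdd E'']
variable {X Y Z ι ι' ι'' : Type}

/-- `f` is piecewise linear near the point `p` of the chart `i`: a neighbourhood of `p` in
the domain of the chart is covered by finitely many closed polyhedra, on each of which `f`
is, in a chart of the target, an affine map which is injective on the directions `W i`. -/
def PLAt (D : ι → Set E) (W : ι → Submodule ℝ E) (χ : ι → E → X)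
    (D' : ι' → Set E') (W' : ι' → Submodule ℝ E') (χ' : ι' → E' → Y)
    (f : X → Y) (i : ι) (p : E) : Prop :=
  ∃ (n : ℕ) (Q : Fin n → Set E) (j : Fin n → ι') (A : Fin n → E →L[ℝ] E') (b : Fin n → E'),
    (∀ k, HPoly (Q k)) ∧
    (∀ k, ∀ x ∈ Q k ∩ D i, A k x + b k ∈ D' (j k) ∧ f (χ i x) = χ' (j k) (A k x + b k)) ∧
    (∀ k, ∀ v ∈ W i, A k v ∈ W' (j k) ∧ (A k v = 0 → v = 0)) ∧
    (∀ᶠ x in 𝓝[D i] p, ∃ k, x ∈ Q k)

/-- Piecewise linear maps. -/
def IsPL (D : ι → Set E) (W : ι → Submodule ℝ E) (χ : ι → E → X)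
    (D' : ι' → Set E') (W' : ι' → Submodule ℝ E') (χ' : ι' → E' → Y) (f : X → Y) : Prop :=
  ∀ i, ∀ p ∈ D i, PLAt D W χ D' W' χ' f i p

variable {D : ι → Set E} {W : ι → Submodule ℝ E} {χ : ι → E → X}
  {D' : ι' → Set E'} {W' : ι' → Submodule ℝ E'} {χ' : ι' → E' → Y}
  {D'' : ι'' → Set E''} {W'' : ι'' → Submodule ℝ E''} {χ'' : ι'' → E'' → Z}

theorem IsPL.id : IsPL D W χ D W χ (fun x : X => x) := by
  intro i p _
  refine ⟨1, fun _ => Set.univ, fun _ => i, fun _ => ContinuousLinearMap.id ℝ E, fun _ => 0,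
    fun _ => HPoly.univ, ?_, ?_, ?_⟩
  · intro k x hx
    simpa using hx.2
  · intro k v hv
    exact ⟨by simpa using hv, by simp⟩
  · exact Eventually.of_forall fun x => ⟨0, Set.mem_univ x⟩

/-- In the definition of `PLAt` one may assume that `p` lies in all the polyhedra. -/
theorem PLAt.exists_mem {f : X → Y} {i : ι} {p : E} (h : PLAt D W χ D' W' χ' f i p) :
    ∃ (n : ℕ) (Q : Fin n → Set E) (j : Fin n → ι') (A : Fin n → E →L[ℝ] E') (b : Fin n → E'),
    (∀ k, HPoly (Q k)) ∧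
    (∀ k, ∀ x ∈ Q k ∩ D i, A k x + b k ∈ D' (j k) ∧ f (χ i x) = χ' (j k) (A k x + b k)) ∧
    (∀ k, ∀ v ∈ W i, A k v ∈ W' (j k) ∧ (A k v = 0 → v = 0)) ∧
    (∀ k, p ∈ Q k) ∧
    (∀ᶠ x in 𝓝[D i] p, ∃ k, x ∈ Q k) := by
  classical
  obtain ⟨n, Q, j, A, b, h1, h2, h3, h4⟩ := h
  let s : Finset (Fin n) := Finset.univ.filter fun k => p ∈ Q k
  let φ : Fin s.card ≃ s := (Finset.equivFin s).symm
  refine ⟨s.card, fun k => Q (φ k), fun k => j (φ k), fun k => A (φ k), fun k => b (φ k),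
    fun k => h1 _, fun k => h2 _, fun k => h3 _, ?_, ?_⟩
  · intro k
    exact (Finset.mem_filter.mp (φ k).2).2
  · have h5 : ∀ᶠ x in 𝓝[D i] p, ∀ k, p ∉ Q k → x ∉ Q k := by
      rw [eventually_all]
      intro k
      by_cases hk : p ∈ Q k
      · exact Eventually.of_forall fun x h => absurd hk h
      · have : (Q k)ᶜ ∈ 𝓝 p := (h1 k).isClosed.isOpen_compl.mem_nhds hk
        filter_upwards [mem_nhdsWithin_of_mem_nhds this] with x hx _
        exact hx
    filter_upwards [h4, h5] with x hx hx5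
    obtain ⟨k, hk⟩ := hx
    have hpk : p ∈ Q k := by
      by_contra hc
      exact hx5 k hc hk
    refine ⟨φ.symm ⟨k, Finset.mem_filter.mpr ⟨Finset.mem_univ _, hpk⟩⟩, ?_⟩
    simpa using hk

/-- Auxiliary: pull back an eventual cover along an affine map. -/
theorem eventually_cover {D : Set E} {D' : Set E'} {p : E} {Q : Set E}
    {A : E →L[ℝ] E'} {b : E'}
    (hAD : ∀ x ∈ Q ∩ D, A x + b ∈ D') {R : E' → Prop}
    (h : ∀ᶠ y in 𝓝[D'] (A p + b), R y) :
    ∀ᶠ x in 𝓝[D] p, x ∈ Q → R (A x + b) := by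
  have hc : Continuous fun x : E => A x + b := A.continuous.add continuous_const
  rw [eventually_nhdsWithin_iff] at h
  have h2 := hc.continuousAt.eventually h
  filter_upwards [mem_nhdsWithin_of_mem_nhds h2, self_mem_nhdsWithin] with x hx hxD hxQ
  exact hx (hAD x ⟨hxQ, hxD⟩)

/-- Composition of piecewise linear maps. -/
theorem IsPL.comp {g : Y → Z} {f : X → Y} (hg : IsPL D' W' χ' D'' W'' χ'' g)
    (hf : IsPL D W χ D' W' χ' f) : IsPL D W χ D'' W'' χ'' (fun x => g (f x)) := by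
  classical
  intro i p hp
  obtain ⟨n, Q, j, A, b, h1, h2, h3, h4, h5⟩ := (hf i p hp).exists_mem
  have key : ∀ k, PLAt D' W' χ' D'' W'' χ'' g (j k) (A k p + b k) := fun k =>
    hg (j k) _ (h2 k p ⟨h4 k, hp⟩).1
  choose m Q' j' A' b' k1 k2 k3 k4 using key
  let T := Σ k : Fin n, Fin (m k)
  let φ : Fin (Fintype.card T) ≃ T := (Fintype.equivFin T).symm
  refine ⟨Fintype.card T, fun t => Q (φ t).1 ∩ {x | A (φ t).1 x + b (φ t).1 ∈ Q' (φ t).1 (φ t).2},
    fun t => j' (φ t).1 (φ t).2,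
    fun t => (A' (φ t).1 (φ t).2).comp (A (φ t).1),
    fun t => A' (φ t).1 (φ t).2 (b (φ t).1) + b' (φ t).1 (φ t).2, ?_, ?_, ?_, ?_⟩
  · intro t
    exact (h1 _).inter ((k1 _ _).preimage _ _)
  · rintro t x ⟨⟨hx1, hx2⟩, hx3⟩
    have e1 := h2 (φ t).1 x ⟨hx1, hx3⟩
    have e2 := k2 (φ t).1 (φ t).2 _ ⟨hx2, e1.1⟩
    have e3 : ((A' (φ t).1 (φ t).2).comp (A (φ t).1)) x +
        (A' (φ t).1 (φ t).2 (b (φ t).1) + b' (φ t).1 (φ t).2) =
        A' (φ t).1 (φ t).2 (A (φ t).1 x + b (φ t).1) + b' (φ t).1 (φ t).2 := by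
      rw [map_add, ContinuousLinearMap.comp_apply, add_assoc]
    rw [e3]
    refine ⟨e2.1, ?_⟩
    show g (f (χ i x)) = _
    rw [e1.2, e2.2]
  · intro t v hv
    have e1 := h3 (φ t).1 v hv
    have e2 := k3 (φ t).1 (φ t).2 _ e1.1
    exact ⟨e2.1, fun h => e1.2 (e2.2 h)⟩
  · have h6 : ∀ᶠ x in 𝓝[D i] p, ∀ k, x ∈ Q k → ∃ l, A k x + b k ∈ Q' k l := by
      rw [eventually_all]
      intro k
      exact eventually_cover (D' := D' (j k)) (fun x hx => (h2 k x hx).1)
        (R := fun y => ∃ l, y ∈ Q' k l) (k4 k)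
    filter_upwards [h5, h6] with x hx hx6
    obtain ⟨k, hk⟩ := hx
    obtain ⟨l, hl⟩ := hx6 k hk
    refine ⟨φ.symm ⟨k, l⟩, ?_⟩
    have e := φ.apply_symm_apply (⟨k, l⟩ : T)
    show x ∈ Q (φ (φ.symm ⟨k, l⟩)).1 ∩ {x | A (φ (φ.symm ⟨k, l⟩)).1 x +
      b (φ (φ.symm ⟨k, l⟩)).1 ∈ Q' (φ (φ.symm ⟨k, l⟩)).1 (φ (φ.symm ⟨k, l⟩)).2}
    rw [e]
    exact ⟨hk, hl⟩

end

section

variable {E E' : Type} [NormedAddCommGroup E] [NormedSpace ℝ E]
  [NormedAddCommGroup E'] [NormedSpace ℝ E']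
variable {X Y ι ι' : Type}

/-- `h : X → M` is piecewise smooth near the point `p` of the chart `i`: a neighbourhood of
`p` in the domain of the chart is covered by finitely many closed polyhedra, on each of which
`h` lifts to a smooth map into `H` (`π : H → M` the projection) whose derivative is injective
on the directions `W i`. -/
def PDAt {M : Type} (D : ι → Set E) (W : ι → Submodule ℝ E) (χ : ι → E → X)
    (H : Set E') (π : H → M) (h : X → M) (i : ι) (p : E) : Prop :=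
  ∃ (n : ℕ) (Q : Fin n → Set E) (g : Fin n → E → E'),
    (∀ k, HPoly (Q k)) ∧
    (∀ k, ∀ x ∈ Q k ∩ D i, ∃ hx : g k x ∈ H, h (χ i x) = π ⟨g k x, hx⟩) ∧
    (∀ k, ∀ x ∈ Q k ∩ D i, ContDiffAt ℝ ((⊤ : ℕ∞) : WithTop ℕ∞) (g k) x ∧
      ∀ v ∈ W i, fderiv ℝ (g k) x v = 0 → v = 0) ∧
    (∀ᶠ x in 𝓝[D i] p, ∃ k, x ∈ Q k)

/-- Piecewise smooth maps. -/
def IsPD {M : Type} (D : ι → Set E) (W : ι → Submodule ℝ E) (χ : ι → E → X)
    (H : Set E') (π : H → M) (h : X → M) : Prop :=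
  ∀ i, ∀ p ∈ D i, PDAt D W χ H π h i p

variable {D : ι → Set E} {W : ι → Submodule ℝ E} {χ : ι → E → X}
  {D' : ι' → Set E'} {W' : ι' → Submodule ℝ E'} {χ' : ι' → E' → Y}

/-- Composition of a piecewise smooth map with a piecewise linear map. -/
theorem IsPD.comp {M F : Type} [NormedAddCommGroup F] [NormedSpace ℝ F] {H : Set F}
    {π : H → M} {h : Y → M} {f : X → Y} (hh : IsPD D' W' χ' H π h)
    (hf : IsPL D W χ D' W' χ' f) : IsPD D W χ H π (fun x => h (f x)) := by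
  classical
  intro i p hp
  obtain ⟨n, Q, j, A, b, h1, h2, h3, h4, h5⟩ := (hf i p hp).exists_mem
  have key : ∀ k, PDAt D' W' χ' H π h (j k) (A k p + b k) := fun k =>
    hh (j k) _ (h2 k p ⟨h4 k, hp⟩).1
  choose m Q' g k1 k2 k3 k4 using key
  let T := Σ k : Fin n, Fin (m k)
  let φ : Fin (Fintype.card T) ≃ T := (Fintype.equivFin T).symm
  refine ⟨Fintype.card T, fun t => Q (φ t).1 ∩ {x | A (φ t).1 x + b (φ t).1 ∈ Q' (φ t).1 (φ t).2},
    fun t x => g (φ t).1 (φ t).2 (A (φ t).1 x + b (φ t).1), ?_, ?_, ?_, ?_⟩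
  · intro t
    exact (h1 _).inter ((k1 _ _).preimage _ _)
  · rintro t x ⟨⟨hx1, hx2⟩, hx3⟩
    have e1 := h2 (φ t).1 x ⟨hx1, hx3⟩
    obtain ⟨e2, e3⟩ := k2 (φ t).1 (φ t).2 _ ⟨hx2, e1.1⟩
    refine ⟨e2, ?_⟩
    show h (f (χ i x)) = _
    rw [e1.2, e3]
  · rintro t x ⟨⟨hx1, hx2⟩, hx3⟩
    have e1 := h2 (φ t).1 x ⟨hx1, hx3⟩
    obtain ⟨e2, e3⟩ := k3 (φ t).1 (φ t).2 _ ⟨hx2, e1.1⟩
    have haff : HasFDerivAt (fun x : E => A (φ t).1 x + b (φ t).1) (A (φ t).1) x :=
      (A (φ t).1).hasFDerivAt.add_const _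
    have hsm : ContDiffAt ℝ ((⊤ : ℕ∞) : WithTop ℕ∞) (fun x : E => A (φ t).1 x + b (φ t).1) x :=
      (A (φ t).1).contDiff.contDiffAt.add contDiffAt_const
    refine ⟨ContDiffAt.comp x e2 hsm, ?_⟩
    intro v hv hv0
    have hd : DifferentiableAt ℝ (g (φ t).1 (φ t).2) (A (φ t).1 x + b (φ t).1) :=
      e2.differentiableAt (by simp)
    have hcomp : HasFDerivAt (fun x => g (φ t).1 (φ t).2 (A (φ t).1 x + b (φ t).1))
        ((fderiv ℝ (g (φ t).1 (φ t).2) (A (φ t).1 x + b (φ t).1)).comp (A (φ t).1)) x :=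
      HasFDerivAt.comp x hd.hasFDerivAt haff
    rw [hcomp.fderiv, ContinuousLinearMap.comp_apply] at hv0
    have e4 := h3 (φ t).1 v hv
    exact e4.2 (e3 _ e4.1 hv0)
  · have h6 : ∀ᶠ x in 𝓝[D i] p, ∀ k, x ∈ Q k → ∃ l, A k x + b k ∈ Q' k l := by
      rw [eventually_all]
      intro k
      exact eventually_cover (D' := D' (j k)) (fun x hx => (h2 k x hx).1)
        (R := fun y => ∃ l, y ∈ Q' k l) (k4 k)
    filter_upwards [h5, h6] with x hx hx6
    obtain ⟨k, hk⟩ := hx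
    obtain ⟨l, hl⟩ := hx6 k hk
    refine ⟨φ.symm ⟨k, l⟩, ?_⟩
    have e := φ.apply_symm_apply (⟨k, l⟩ : T)
    show x ∈ Q (φ (φ.symm ⟨k, l⟩)).1 ∩ {x | A (φ (φ.symm ⟨k, l⟩)).1 x +
      b (φ (φ.symm ⟨k, l⟩)).1 ∈ Q' (φ (φ.symm ⟨k, l⟩)).1 (φ (φ.symm ⟨k, l⟩)).2}
    rw [e]
    exact ⟨hk, hl⟩

end

end PL55
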