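import Pool.Agent.Lib_MP_55d5ef_pl.PLX

/-!
# Piecewise linear maps: restriction, compactness
-/

open Filter Topology

set_option linter.unusedSectionVars false

namespace PL55

section

variable {E E' : Type} [AddCommGroup E] [Module ℝ E] [TopologicalSpace E]
  [AddCommGroup E'] [Module ℝ E'] [TopologicalSpace E'] [ContinuousAdd E']
variable {X Y ι ι' : Type}
variable {D D1 : ι → Set E} {W : ι → Submodule ℝ E} {χ : ι → E → X}
  {D' D1' : ι' → Set E'} {W' : ι' → Submodule ℝ E'} {χ' : ι' → E' → Y}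

/-- Restriction of a piecewise linear map to smaller chart domains. -/
theorem IsPL.restrict {f : X → Y} (hf : IsPL D W χ D' W' χ' f) (h1 : ∀ i, D1 i ⊆ D i)
    (h2 : ∀ i j, ∀ x ∈ D1 i, ∀ y ∈ D' j, f (χ i x) = χ' j y → y ∈ D1' j) :
    IsPL D1 W χ D1' W' χ' f := by
  intro i p hp
  obtain ⟨n, Q, j, A, b, k1, k2, k3, k4⟩ := hf i p (h1 i hp)
  refine ⟨n, Q, j, A, b, k1, ?_, k3, k4.filter_mono (nhdsWithin_mono p (h1 i))⟩
  rintro k x ⟨hx, hx1⟩
  obtain ⟨e1, e2⟩ := k2 k x ⟨hx, h1 i hx1⟩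
  exact ⟨h2 i (j k) x hx1 _ e1 e2, e2⟩

/-- A compact subset of a chart domain is covered by finitely many pieces. -/
theorem IsPL.compact {f : X → Y} (hf : IsPL D W χ D' W' χ' f) (i : ι) {K : Set E}
    (hK : IsCompact K) (hKD : K ⊆ D i) :
    ∃ (n : ℕ) (Q : Fin n → Set E) (j : Fin n → ι') (A : Fin n → E →L[ℝ] E') (b : Fin n → E'),
      (∀ k, HPoly (Q k)) ∧
      (∀ k, ∀ x ∈ Q k ∩ D i, A k x + b k ∈ D' (j k) ∧ f (χ i x) = χ' (j k) (A k x + b k)) ∧
      (∀ k, ∀ v ∈ W i, A k v ∈ W' (j k) ∧ (A k v = 0 → v = 0)) ∧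
      (∀ x ∈ K, ∃ k, x ∈ Q k) := by
  refine hK.induction_on (p := fun K => ∃ (n : ℕ) (Q : Fin n → Set E) (j : Fin n → ι')
      (A : Fin n → E →L[ℝ] E') (b : Fin n → E'),
      (∀ k, HPoly (Q k)) ∧
      (∀ k, ∀ x ∈ Q k ∩ D i, A k x + b k ∈ D' (j k) ∧ f (χ i x) = χ' (j k) (A k x + b k)) ∧
      (∀ k, ∀ v ∈ W i, A k v ∈ W' (j k) ∧ (A k v = 0 → v = 0)) ∧
      (∀ x ∈ K, ∃ k, x ∈ Q k)) ?_ ?_ ?_ ?_
  · exact ⟨0, fun k => k.elim0, fun k => k.elim0, fun k => k.elim0, fun k => k.elim0,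
      fun k => k.elim0, fun k => k.elim0, fun k => k.elim0, fun x hx => hx.elim⟩
  · rintro s t hst ⟨n, Q, j, A, b, k1, k2, k3, k4⟩
    exact ⟨n, Q, j, A, b, k1, k2, k3, fun x hx => k4 x (hst hx)⟩
  · rintro s t ⟨n, Q, j, A, b, k1, k2, k3, k4⟩ ⟨m, Q', j', A', b', l1, l2, l3, l4⟩
    refine ⟨n + m, Fin.append Q Q', Fin.append j j', Fin.append A A', Fin.append b b',
      ?_, ?_, ?_, ?_⟩
    · intro k
      refine Fin.addCases (fun i => ?_) (fun i => ?_) k
      · simpa using k1 i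
      · simpa using l1 i
    · intro k
      refine Fin.addCases (fun i => ?_) (fun i => ?_) k
      · simpa using k2 i
      · simpa using l2 i
    · intro k
      refine Fin.addCases (fun i => ?_) (fun i => ?_) k
      · simpa using k3 i
      · simpa using l3 i
    · rintro x (hx | hx)
      · obtain ⟨k, hk⟩ := k4 x hx
        exact ⟨Fin.castAdd m k, by simpa using hk⟩
      · obtain ⟨k, hk⟩ := l4 x hx
        exact ⟨Fin.natAdd n k, by simpa using hk⟩
  · intro x hx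
    obtain ⟨n, Q, j, A, b, k1, k2, k3, k4⟩ := hf i x (hKD hx)
    refine ⟨{y | ∃ k, y ∈ Q k} ∩ K, ?_, n, Q, j, A, b, k1, k2, k3, fun y hy => hy.1⟩
    have h5 : {y | ∃ k, y ∈ Q k} ∈ 𝓝[K] x := k4.filter_mono (nhdsWithin_mono x hKD)
    exact Filter.inter_mem h5 self_mem_nhdsWithin

/-- A piecewise linear map to a vector space is continuous in the charts. -/
theorem IsPL.continuousWithinAt {f : X → E'}
    (hf : IsPL D W χ D' W' (fun (_ : ι') (x : E') => x) f) (i : ι) {p : E} (hp : p ∈ D i) :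
    ContinuousWithinAt (fun x => f (χ i x)) (D i) p := by
  obtain ⟨n, Q, j, A, b, k1, k2, _, k4, k5⟩ := (hf i p hp).exists_mem
  have h0 : ∀ k, f (χ i p) = A k p + b k := fun k => (k2 k p ⟨k4 k, hp⟩).2
  intro U hU
  have h1 : ∀ᶠ x in 𝓝[D i] p, ∀ k, A k x + b k ∈ U := by
    rw [eventually_all]
    intro k
    have hc : Continuous fun x : E => A k x + b k := (A k).continuous.add continuous_const
    have h2 : ∀ᶠ x in 𝓝 p, A k x + b k ∈ U := by
      apply hc.continuousAt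
      show U ∈ 𝓝 (A k p + b k)
      rw [← h0 k]
      exact hU
    exact h2.filter_mono nhdsWithin_le_nhds
  show ∀ᶠ x in 𝓝[D i] p, f (χ i x) ∈ U
  filter_upwards [k5, h1, self_mem_nhdsWithin] with x hx hx1 hxD
  obtain ⟨k, hk⟩ := hx
  rw [(k2 k x ⟨hk, hxD⟩).2]
  exact hx1 k

end

section

open Fl49 Finset

variable {V : Type} [DecidableEq V] {ρ : Type}
variable {V' : Type} [DecidableEq V'] {ρ' : Type}
variable {lab : ρ → Finset V} {num : ρ → V → ℕ} {od : ρ → V → List V} {S : Set ρ}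
variable {lab' : ρ' → Finset V'} {num' : ρ' → V' → ℕ} {od' : ρ' → V' → List V'} {S' : Set ρ'}

theorem PLX.restrict {T T1 : Set (X lab num od S)} {T' T1' : Set (X lab' num' od' S')}
    {f : X lab num od S → X lab' num' od' S'} (hf : PLX lab num od S T lab' num' od' S' T' f)
    (h1 : T ⊆ T1) (h2 : ∀ x, x ∉ T1 → f x ∉ T1') :
    PLX lab num od S T1 lab' num' od' S' T1' f := by
  intro x0 y0
  refine (hf x0 y0).restrict ?_ ?_
  · rintro i x ⟨hx, hx1⟩
    exact ⟨hx, fun h => hx1 (h1 h)⟩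
  · rintro i j x ⟨hx, hx1⟩ y ⟨hy, hy1⟩ h
    refine ⟨hy, ?_⟩
    have e1 : chart lab num od S x0 i x = pt lab num od i i.2 x hx := by
      unfold chart; rw [dif_pos hx]
    have e2 : chart lab' num' od' S' y0 j y = pt lab' num' od' j j.2 y hy := by
      unfold chart; rw [dif_pos hy]
    rw [e1, e2] at h
    rw [← h]
    exact h2 _ hx1

end

end PL55
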